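import Mathlib
import Pool.Agent.Helper450.Kneser

set_option autoImplicit false

open scoped Pointwise
open Finset

namespace Pool.Agent.R187.SH

open Pool.Agent.Helper450.Kneser

variable {G : Type*} [AddCommGroup G] [Fintype G] [DecidableEq G]

/-- the `n`-fold sumset of `R` -/
def It (R : Finset G) : ℕ → Finset G
  | 0 => 0
  | n + 1 => It R n + R

theorem mem_It {R : Finset G} : ∀ (n : ℕ) (x : G), x ∈ It R n →
    ∃ m : Multiset G, Multiset.card m = n ∧ (∀ y ∈ m, y ∈ R) ∧ m.sum = x := by
  intro n
  induction n with
  | zero =>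
    intro x hx
    rw [It, mem_zero] at hx
    exact ⟨0, rfl, by simp, by simp [hx]⟩
  | succ n ih =>
    intro x hx
    rw [It, mem_add] at hx
    obtain ⟨a, ha, b, hb, rfl⟩ := hx
    obtain ⟨m, h1, h2, h3⟩ := ih a ha
    refine ⟨b ::ₘ m, by simp [h1], ?_, by simp [h3, add_comm]⟩
    intro y hy
    rw [Multiset.mem_cons] at hy
    rcases hy with rfl | hy
    · exact hb
    · exact h2 y hy

theorem It_nonempty {R : Finset G} (hR : R.Nonempty) (n : ℕ) : (It R n).Nonempty := by
  induction n with
  | zero => exact ⟨0, by simp [It]⟩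
  | succ n ih => rw [It]; exact ih.add hR

theorem It_add (R : Finset G) (m n : ℕ) : It R (m + n) = It R m + It R n := by
  induction n with
  | zero => simp [It]
  | succ n ih => rw [← add_assoc, It, ih, It, add_assoc]

theorem stab_le_stab_add (C D : Finset G) : stab C ≤ stab (C + D) := by
  intro g hg
  apply mem_stab_of_forall
  intro x hx
  obtain ⟨c, hc, d, hd, rfl⟩ := mem_add.mp hx
  rw [add_right_comm]
  exact add_mem_add (stab_add hg hc) hd

theorem le_stab_add_fs (C : Finset G) (H : AddSubgroup G) : H ≤ stab (C + fs H) := by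
  intro g hg
  apply mem_stab_of_forall
  intro x hx
  obtain ⟨c, hc, d, hd, rfl⟩ := mem_add.mp hx
  rw [add_assoc]
  exact add_mem_add hc (mem_fs.mpr (H.add_mem (mem_fs.mp hd) hg))

theorem fs_add_fs (H : AddSubgroup G) : fs H + fs H = fs H := by
  apply add_fs_stab
  intro g hg x
  rw [mem_fs, mem_fs]
  exact ⟨fun hx => H.add_mem hx hg, fun hx => by
    have := H.sub_mem hx hg
    rwa [add_sub_cancel_right] at this⟩

/-- iterated form of Kneser's theorem: the bound for the partial sums -/
theorem kneser_iter (R : Finset G) (hR : R.Nonempty) (n : ℕ) (H : AddSubgroup G)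
    (hH : H = stab (It R (n + 1))) : ∀ j, j ≤ n →
    (j + 1) * (R + fs H).card ≤ (It R (j + 1) + fs H).card + j * (fs H).card := by
  intro j
  induction j with
  | zero =>
    intro _
    have : It R 1 = R := by simp [It]
    rw [this]; omega
  | succ j ih =>
    intro hj
    have h1 := ih (by omega)
    have hst : stab ((It R (j + 1) + fs H) + (R + fs H)) = H := by
      have e : (It R (j + 1) + fs H) + (R + fs H) = It R (j + 1 + 1) + fs H := by
        rw [add_add_add_comm, fs_add_fs]; rfl
      rw [e]
      apply le_antisymm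
      · have e2 : (It R (j + 1 + 1) + fs H) + It R (n - (j + 1)) = It R (n + 1) := by
          rw [add_right_comm, ← It_add]
          have : j + 1 + 1 + (n - (j + 1)) = n + 1 := by omega
          rw [this]
          apply add_fs_stab
          rw [hH]
        have := stab_le_stab_add (It R (j + 1 + 1) + fs H) (It R (n - (j + 1)))
        rw [e2] at this
        rw [hH] at this ⊢
        exact this
      · exact le_stab_add_fs _ _
    have h2 := kneser (It R (j + 1) + fs H) (R + fs H)
      ((It_nonempty hR _).add (fs_nonempty H)) (hR.add (fs_nonempty H))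
    rw [hst] at h2
    have e : (It R (j + 1) + fs H) + (R + fs H) = It R (j + 1 + 1) + fs H := by
      rw [add_add_add_comm, fs_add_fs]; rfl
    rw [e] at h2
    nlinarith

/-- the number of elements of a union of cosets is a multiple of the order of the subgroup -/
theorem card_fs_dvd (C : Finset G) (H : AddSubgroup G) : (fs H).card ∣ (C + fs H).card := by
  classical
  -- fibre over the quotient
  let π : G → G ⧸ H := QuotientAddGroup.mk
  have h1 : (C + fs H).card = ∑ q ∈ (C + fs H).image π, ((C + fs H).filter (fun x => π x = q)).card :=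
    card_eq_sum_card_image π _
  rw [h1]
  apply Finset.dvd_sum
  intro q hq
  obtain ⟨x0, hx0, rfl⟩ := mem_image.mp hq
  have : ((C + fs H).filter (fun x => π x = π x0)).card = (fs H).card := by
    symm
    apply Finset.card_bij (fun g _ => x0 + g)
    · intro g hg
      rw [mem_filter]
      constructor
      · exact stab_add (le_stab_add_fs C H (mem_fs.mp hg)) hx0
      · simp only [π]
        rw [QuotientAddGroup.mk_add]
        have : ((g : G) : G ⧸ H) = 0 := (QuotientAddGroup.eq_zero_iff g).mpr (mem_fs.mp hg)
        rw [this, add_zero]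
    · intro a _ b _ hab
      exact add_left_cancel hab
    · intro b hb
      rw [mem_filter] at hb
      refine ⟨-x0 + b, ?_, by abel⟩
      rw [mem_fs]
      exact (QuotientAddGroup.eq (s := H)).mp hb.2.symm
  rw [this]

theorem card_eq_index (H : AddSubgroup G) : H.index * (fs H).card = Fintype.card G := by
  have h1 := H.index_mul_card
  rw [Nat.card_eq_fintype_card (α := G)] at h1
  have h2 : Nat.card H = (fs H).card := by
    rw [← Nat.card_eq_finsetCard]
    exact Nat.card_congr (Equiv.subtypeEquivRight (fun x => mem_fs.symm))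
  rw [h2] at h1
  exact h1

/-- A set with more than `|G| / p` elements, `p` at most the least prime factor of the order of
`G`, contains `k + 1` elements (with repetitions) with sum zero if `k G = 0`. -/
theorem zero_sum (k p : ℕ) (hk : ∀ x : G, k • x = 0) (hk0 : 0 < k)
    (hp : ∀ l : ℕ, l.Prime → l ∣ Fintype.card G → p ≤ l) (R : Finset G)
    (hR : Fintype.card G < p * R.card) :
    ∃ m : Multiset G, Multiset.card m = k + 1 ∧ (∀ y ∈ m, y ∈ R) ∧ m.sum = 0 := by
  classical
  apply mem_It
  have hRne : R.Nonempty := by
    rw [nonempty_iff_ne_empty]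
    rintro rfl
    simp at hR
  set C := It R (k + 1) with hC
  by_cases hCu : C = univ
  · rw [hCu]; exact mem_univ _
  exfalso
  set H := stab C with hH
  have hK := kneser_iter R hRne k H rfl k le_rfl
  have hCH : It R (k + 1) + fs H = C := add_fs_stab _ _ le_rfl
  rw [hCH] at hK
  have hfs : 0 < (fs H).card := fs_card_pos H
  obtain ⟨a, ha⟩ := card_fs_dvd R H
  have hidx := card_eq_index H
  set N := H.index with hN
  -- |C| < |G|
  have hlt : C.card < Fintype.card G := by
    rw [← card_univ]
    exact card_lt_card (ssubset_univ_iff.mpr hCu)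
  have hsub : R.card ≤ (R + fs H).card := by
    apply card_le_card
    intro x hx
    rw [← add_zero x]
    exact add_mem_add hx (mem_fs.mpr H.zero_mem)
  have hpa : N < p * a := by
    have h1 : N * (fs H).card < p * a * (fs H).card := by
      calc N * (fs H).card = Fintype.card G := hidx
        _ < p * R.card := hR
        _ ≤ p * (R + fs H).card := Nat.mul_le_mul_left _ hsub
        _ = p * a * (fs H).card := by rw [ha]; ring
    exact Nat.lt_of_mul_lt_mul_right h1
  have hmain : (k + 1) * a < N + k := by
    have h1 : (k + 1) * a * (fs H).card < (N + k) * (fs H).card := by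
      calc (k + 1) * a * (fs H).card = (k + 1) * (R + fs H).card := by rw [ha]; ring
        _ ≤ C.card + k * (fs H).card := hK
        _ < Fintype.card G + k * (fs H).card := by omega
        _ = (N + k) * (fs H).card := by rw [← hidx]; ring
    exact Nat.lt_of_mul_lt_mul_right h1
  have ha1 : 0 < a := by
    rcases Nat.eq_zero_or_pos a with h | h
    · rw [h] at hpa; omega
    · exact h
  have hN1 : N ≠ 1 := by
    intro h1
    rw [h1] at hmain
    nlinarith
  have hN0 : N ≠ 0 := by
    intro h0
    rw [h0, zero_mul] at hidx
    have : 0 < Fintype.card G := Fintype.card_pos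
    omega
  have hNdvd : N ∣ Fintype.card G := ⟨(fs H).card, hidx.symm⟩
  have hpN : p ≤ N.minFac := hp _ (Nat.minFac_prime hN1) ((Nat.minFac_dvd N).trans hNdvd)
  have hprime_le : ∀ l : ℕ, l.Prime → l ∣ Fintype.card G → l ≤ k := by
    intro l hl hld
    have := Fact.mk hl
    obtain ⟨x, hx⟩ := exists_prime_addOrderOf_dvd_card' (G := G) l (by
      rwa [Nat.card_eq_fintype_card])
    have : l ∣ k := by
      rw [← hx]
      exact addOrderOf_dvd_of_nsmul_eq_zero (hk x)
    exact Nat.le_of_dvd hk0 this
  by_cases hNp : N.Prime
  · have h1 : N ≤ k := hprime_le N hNp hNdvd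
    have h2 : p ≤ N := by
      have := hpN
      rwa [hNp.minFac_eq] at this
    have h3 : 2 ≤ a := by
      by_contra hcon
      have : a = 1 := by omega
      rw [this] at hpa
      omega
    nlinarith
  · have h1 : N.minFac ^ 2 ≤ N := Nat.minFac_sq_le_self (Nat.pos_of_ne_zero hN0) hNp
    have h2 : p ^ 2 ≤ N := (Nat.pow_le_pow_left hpN 2).trans h1
    have h3 : p ≤ k := hpN.trans (hprime_le _ (Nat.minFac_prime hN1) ((Nat.minFac_dvd N).trans hNdvd))
    have h4 : p < a := by
      by_contra hcon
      have : p * a ≤ p * p := Nat.mul_le_mul_left _ (by omega)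
      nlinarith
    -- (k+1) a < N + k < p a + k
    have h5 : p * (a - 1) ≤ k * (a - 1) := Nat.mul_le_mul_right _ h3
    obtain ⟨b, rfl⟩ : ∃ b, a = b + 1 := ⟨a - 1, by omega⟩
    simp only [Nat.add_sub_cancel] at h5
    nlinarith

end Pool.Agent.R187.SH
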