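import Mathlib
import Pool.Agent.R187.SH.Zero

set_option autoImplicit false

open Finset

namespace Pool.Agent.R187.SH

/-- independent sets in digraphs of bounded out-degree -/
theorem exists_indep {V : Type*} [DecidableEq V] (N : V → Finset V) (C : ℕ) (hC : 0 < C) :
    ∀ (n : ℕ) (B : Finset V), B.card = n → (∀ x ∈ B, (N x).card < C) →
    ∃ B' ⊆ B, B.card ≤ 2 * C * B'.card ∧ ∀ x ∈ B', ∀ y ∈ B', y ≠ x → y ∉ N x := by
  intro n
  induction n using Nat.strong_induction_on with
  | _ n ih =>
    intro B hBn hB
    rcases B.eq_empty_or_nonempty with rfl | hne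
    · exact ⟨∅, by simp, by simp, by simp⟩
    -- a vertex of small in-degree
    have hcount : ∑ y ∈ B, (B.filter (fun x => y ∈ N x)).card = ∑ x ∈ B, (B.filter (fun y => y ∈ N x)).card := by
      simp only [card_filter]
      rw [sum_comm]
    have hlt : ∑ x ∈ B, (B.filter (fun y => y ∈ N x)).card < B.card * C := by
      have : ∑ x ∈ B, (B.filter (fun y => y ∈ N x)).card < ∑ x ∈ B, C := by
        apply sum_lt_sum_of_nonempty hne
        intro x hx
        refine lt_of_le_of_lt (card_le_card ?_) (hB x hx)
        intro y hy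
        exact (mem_filter.mp hy).2
      simpa using this
    obtain ⟨v, hv, hvC⟩ : ∃ v ∈ B, (B.filter (fun x => v ∈ N x)).card < C := by
      by_contra hcon
      push Not at hcon
      have : B.card * C ≤ ∑ y ∈ B, (B.filter (fun x => y ∈ N x)).card := by
        calc B.card * C = ∑ y ∈ B, C := by simp
          _ ≤ _ := sum_le_sum hcon
      omega
    set D := insert v (N v ∪ B.filter (fun x => v ∈ N x)) with hD
    have hDcard : D.card ≤ 2 * C := by
      calc D.card ≤ (N v ∪ B.filter (fun x => v ∈ N x)).card + 1 := card_insert_le _ _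
        _ ≤ (N v).card + (B.filter (fun x => v ∈ N x)).card + 1 := by
            have := card_union_le (N v) (B.filter (fun x => v ∈ N x)); omega
        _ ≤ 2 * C := by have := hB v hv; omega
    have hvD : v ∈ D := by rw [hD]; exact mem_insert_self _ _
    have hlt2 : (B \ D).card < n := by
      rw [← hBn]
      apply card_lt_card
      refine ⟨sdiff_subset, fun h => ?_⟩
      have := h hv
      rw [mem_sdiff] at this
      exact this.2 hvD
    obtain ⟨B1, hB1, hB1c, hB1i⟩ := ih _ hlt2 (B \ D) rfl (fun x hx => hB x (mem_sdiff.mp hx).1)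
    have hvB1 : v ∉ B1 := fun h => (mem_sdiff.mp (hB1 h)).2 hvD
    refine ⟨insert v B1, ?_, ?_, ?_⟩
    · intro x hx
      rcases mem_insert.mp hx with rfl | hx
      · exact hv
      · exact (mem_sdiff.mp (hB1 hx)).1
    · rw [card_insert_of_notMem hvB1]
      have h1 : B.card ≤ (B \ D).card + D.card := by
        have := card_le_card_sdiff_add_card (s := B) (t := D)
        omega
      nlinarith
    · intro x hx y hy hyx
      rcases mem_insert.mp hx with hxv | hx1
      · rcases mem_insert.mp hy with hyv | hy1
        · exact absurd (hyv.trans hxv.symm) hyx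
        · intro h
          apply (mem_sdiff.mp (hB1 hy1)).2
          rw [hD]
          rw [hxv] at h
          exact mem_insert_of_mem (mem_union_left _ h)
      · rcases mem_insert.mp hy with hyv | hy1
        · intro h
          apply (mem_sdiff.mp (hB1 hx1)).2
          rw [hD]
          rw [hyv] at h
          exact mem_insert_of_mem (mem_union_right _ (mem_filter.mpr ⟨(mem_sdiff.mp (hB1 hx1)).1, h⟩))
        · exact hB1i x hx1 y hy1 hyx

variable {G : Type*} [AddCommGroup G] [Fintype G] [DecidableEq G]

/-- the points `y ≠ x` of `R` whose reflection in `x` is in `R` -/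
def refl (R : Finset G) (x : G) : Finset G :=
  R.filter (fun y => y ≠ x ∧ 2 • x - y ∈ R)

theorem mem_refl {R : Finset G} {x y : G} : y ∈ refl R x ↔ y ∈ R ∧ y ≠ x ∧ 2 • x - y ∈ R := by
  rw [refl, mem_filter]

/-- the points of `R` with few reflections are few (Roth's theorem) -/
theorem few_bad (C : ℕ) (hC : 0 < C) (δ : ℝ) (hδ : 0 < δ) (R : Finset G)
    (hG : cornersTheoremBound (δ / (2 * C)) ≤ Fintype.card G) :
    ((R.filter (fun x => (refl R x).card < C)).card : ℝ) ≤ δ * Fintype.card G := by
  set B := R.filter (fun x => (refl R x).card < C) with hB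
  obtain ⟨B', hB'1, hB'2, hB'3⟩ := exists_indep (refl R) C hC _ B rfl
    (fun x hx => (mem_filter.mp hx).2)
  have hfree : ThreeAPFree (B' : Set G) := by
    intro a ha b hb c hc habc
    by_contra hne
    have ha' : a ∈ B' := ha
    have hb' : b ∈ B' := hb
    have hc' : c ∈ B' := hc
    apply hB'3 b hb' a ha' hne
    rw [mem_refl]
    refine ⟨(mem_filter.mp (hB'1 ha')).1, hne, ?_⟩
    have : 2 • b - a = c := by
      rw [two_nsmul, ← habc]; abel
    rw [this]
    exact (mem_filter.mp (hB'1 hc')).1
  have hC' : (0 : ℝ) < 2 * C := by positivity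
  have h1 : ¬ (δ / (2 * C) * Fintype.card G ≤ B'.card) := by
    intro h
    exact roth_3ap_theorem (δ / (2 * C)) (by positivity) hG B' h hfree
  push Not at h1
  have h2 : (B.card : ℝ) ≤ 2 * C * B'.card := by exact_mod_cast hB'2
  calc (B.card : ℝ) ≤ 2 * C * B'.card := h2
    _ ≤ 2 * C * (δ / (2 * C) * Fintype.card G) := by gcongr
    _ = δ * Fintype.card G := by field_simp

/-- repeated elements are replaced by pairs of reflected points -/
theorem distinct (h2 : ∀ d : G, 2 • d = 0 → d = 0) (k : ℕ) (R : Finset G) :
    ∀ (n : ℕ) (W : Multiset G), Multiset.card W = n →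
    (∀ x ∈ W, x ∈ R ∧ 2 * k + 3 ≤ (refl R x).card) → ∀ U : Finset G, U ⊆ R →
    (∀ x ∈ W, x ∉ U) → U.card + n = k + 1 →
    ∃ F ⊆ R, F.card = k + 1 ∧ ∑ x ∈ F, x = ∑ x ∈ U, x + W.sum := by
  intro n
  induction n using Nat.strong_induction_on with
  | _ n ih =>
    intro W hWn hW U hU hWU hcard
    rcases Multiset.empty_or_exists_mem W with rfl | ⟨x, hx⟩
    · refine ⟨U, hU, ?_, by simp⟩
      simp at hWn
      omega
    obtain ⟨W1, rfl⟩ := Multiset.exists_cons_of_mem hx
    have hn : Multiset.card W1 + 1 = n := by simpa using hWn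
    by_cases hx1 : x ∈ W1
    · obtain ⟨W2, rfl⟩ := Multiset.exists_cons_of_mem hx1
      have hn2 : Multiset.card W2 + 2 = n := by
        simp at hn; omega
      -- choose the pair
      set E := U ∪ (x ::ₘ x ::ₘ W2).toFinset with hE
      have hEc : E.card ≤ k + 1 := by
        calc E.card ≤ U.card + (x ::ₘ x ::ₘ W2).toFinset.card := card_union_le _ _
          _ ≤ U.card + n := by
            have := Multiset.toFinset_card_le (x ::ₘ x ::ₘ W2)
            omega
          _ = k + 1 := hcard
      set E' := E.image (fun z => 2 • x - z) with hE'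
      have hE'c : E'.card ≤ k + 1 := card_image_le.trans hEc
      obtain ⟨y, hy, hyE⟩ : ∃ y ∈ refl R x, y ∉ E ∪ E' := by
        by_contra hcon
        push Not at hcon
        have h1 : (refl R x).card ≤ (E ∪ E').card := card_le_card hcon
        have h3 := card_union_le E E'
        have h4 := (hW x hx).2
        omega
      rw [mem_union, not_or] at hyE
      obtain ⟨hyR, hyx, hyR'⟩ := mem_refl.mp hy
      have hyE1 := hyE.1
      have hyE2 : 2 • x - y ∉ E := by
        intro h
        apply hyE.2
        rw [hE', mem_image]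
        exact ⟨_, h, by abel⟩
      rw [hE, mem_union, not_or] at hyE1 hyE2
      have hne : y ≠ 2 • x - y := by
        intro h
        apply hyx
        have : 2 • (y - x) = 0 := by
          rw [smul_sub, two_nsmul y]
          nth_rewrite 2 [h]
          abel
        have := h2 _ this
        exact sub_eq_zero.mp this
      obtain ⟨F, hF1, hF2, hF3⟩ := ih (Multiset.card W2) (by omega) W2 rfl
        (fun z hz => hW z (by simp [hz])) (insert y (insert (2 • x - y) U))
        (by
          intro z hz
          rcases mem_insert.mp hz with rfl | hz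
          · exact hyR
          rcases mem_insert.mp hz with rfl | hz
          · exact hyR'
          exact hU hz)
        (by
          intro z hz hz'
          have hzW : z ∈ (x ::ₘ x ::ₘ W2).toFinset := by simp [hz]
          rcases mem_insert.mp hz' with rfl | hz'
          · exact hyE1.2 hzW
          rcases mem_insert.mp hz' with rfl | hz'
          · exact hyE2.2 hzW
          exact hWU z (by simp [hz]) hz')
        (by
          rw [card_insert_of_notMem, card_insert_of_notMem hyE2.1]
          · omega
          · rw [mem_insert, not_or]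
            exact ⟨hne, hyE1.1⟩)
      refine ⟨F, hF1, hF2, ?_⟩
      rw [hF3, sum_insert, sum_insert hyE2.1, Multiset.sum_cons, Multiset.sum_cons]
      · have : y + (2 • x - y + ∑ x ∈ U, x) = ∑ x ∈ U, x + (x + x) := by
          rw [two_nsmul]; abel
        rw [this]; abel
      · rw [mem_insert, not_or]
        exact ⟨hne, hyE1.1⟩
    · have hxU : x ∉ U := hWU x hx
      obtain ⟨F, hF1, hF2, hF3⟩ := ih (Multiset.card W1) (by omega) W1 rfl
        (fun z hz => hW z (by simp [hz])) (insert x U)
        (by
          intro z hz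
          rcases mem_insert.mp hz with rfl | hz
          · exact (hW _ hx).1
          exact hU hz)
        (by
          intro z hz hz'
          rcases mem_insert.mp hz' with rfl | hz'
          · exact hx1 hz
          exact hWU z (by simp [hz]) hz')
        (by rw [card_insert_of_notMem hxU]; omega)
      refine ⟨F, hF1, hF2, ?_⟩
      rw [hF3, sum_insert hxU, Multiset.sum_cons]
      abel

/-- in a group of odd order and exponent dividing `k`, a set of density more than `1 / p` contains
`k + 1` distinct elements with sum zero -/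
theorem zero_sum_distinct (k p : ℕ) (hk0 : 0 < k) (hp0 : 0 < p) (ε : ℝ) (hε : 0 < ε)
    (hk : ∀ x : G, k • x = 0) (h2 : ∀ d : G, 2 • d = 0 → d = 0)
    (hp : ∀ l : ℕ, l.Prime → l ∣ Fintype.card G → p ≤ l)
    (hG : cornersTheoremBound (ε / 2 / (2 * (2 * k + 3 : ℕ))) ≤ Fintype.card G)
    (R : Finset G) (hR : (1 / p + ε) * Fintype.card G ≤ R.card) :
    ∃ F ⊆ R, F.card = k + 1 ∧ ∑ x ∈ F, x = 0 := by
  have hbad := few_bad (2 * k + 3) (by omega) (ε / 2) (by positivity) R hG
  set B := R.filter (fun x => (refl R x).card < 2 * k + 3) with hB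
  have hcard : ((R \ B).card : ℝ) = R.card - B.card := by
    have : (R \ B).card + B.card = R.card := card_sdiff_add_card_eq_card (filter_subset _ _)
    rw [← this]; push_cast; ring
  have hGpos : (0 : ℝ) < Fintype.card G := by
    have : 0 < Fintype.card G := Fintype.card_pos
    exact_mod_cast this
  have hp0' : (0 : ℝ) < p := by exact_mod_cast hp0
  have hlt : Fintype.card G < p * (R \ B).card := by
    have h1 : (Fintype.card G : ℝ) < p * (R \ B).card := by
      rw [hcard]
      have h2 : (1 / p + ε / 2) * Fintype.card G ≤ (R.card : ℝ) - B.card := by linarith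
      have h3 : (p : ℝ) * ((1 / p + ε / 2) * Fintype.card G) ≤ p * ((R.card : ℝ) - B.card) := by
        gcongr
      have h4 : (p : ℝ) * ((1 / p + ε / 2) * Fintype.card G) = Fintype.card G + p * (ε / 2) * Fintype.card G := by
        field_simp
      have h5 : 0 < p * (ε / 2) * (Fintype.card G : ℝ) := by positivity
      linarith
    exact_mod_cast h1
  obtain ⟨m, hm1, hm2, hm3⟩ := zero_sum k p hk hk0 hp (R \ B) hlt
  obtain ⟨F, hF1, hF2, hF3⟩ := distinct h2 k R (k + 1) m hm1
    (fun x hx => by
      have := mem_sdiff.mp (hm2 x hx)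
      refine ⟨this.1, ?_⟩
      by_contra hcon
      apply this.2
      rw [hB, mem_filter]
      exact ⟨this.1, by omega⟩) ∅ (by simp) (by simp) (by simp)
  exact ⟨F, hF1, hF2, by rw [hF3, hm3]; simp⟩

end Pool.Agent.R187.SH
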