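import Mathlib
import Pool.Agent.R187.SH.Roth

set_option autoImplicit false

open Finset

namespace Pool.Agent.R187.SH

open Pool.Agent.Helper450.Kneser

variable {A : Type*} [AddCommGroup A] [Fintype A] [DecidableEq A]

/-- many elements of a set lie in one shift of a section of the quotient -/
theorem exists_section (H : AddSubgroup A) [Fintype (A ⧸ H)] (S : Finset A) :
    ∃ c ∈ H, S.card ≤ (fs H).card *
      ((univ : Finset (A ⧸ H)).filter (fun q => q.out + c ∈ S)).card := by
  classical
  by_contra hcon
  push Not at hcon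
  have h1 : S.card = ∑ c ∈ fs H, (S.filter (fun s => s - (QuotientAddGroup.mk (s := H) s).out = c)).card := by
    apply card_eq_sum_card_fiberwise
    intro s _
    rw [mem_coe, mem_fs]
    have := QuotientAddGroup.out_eq' (QuotientAddGroup.mk (s := H) s)
    have h2 := (QuotientAddGroup.eq (s := H)).mp this
    rwa [neg_add_eq_sub] at h2
  have h2 : ∀ c ∈ fs H, (S.filter (fun s => s - (QuotientAddGroup.mk (s := H) s).out = c)).card ≤
      ((univ : Finset (A ⧸ H)).filter (fun q => q.out + c ∈ S)).card := by
    intro c _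
    apply card_le_card_of_injOn (fun s => QuotientAddGroup.mk (s := H) s)
    · intro s hs
      rw [mem_coe, mem_filter] at hs
      rw [mem_coe, mem_filter]
      refine ⟨mem_univ _, ?_⟩
      rw [← hs.2, add_sub_cancel]
      exact hs.1
    · intro s hs s' hs' hss
      rw [mem_coe, mem_filter] at hs hs'
      have e1 : s = (QuotientAddGroup.mk (s := H) s).out + c := by rw [← hs.2]; abel
      have e2 : s' = (QuotientAddGroup.mk (s := H) s').out + c := by rw [← hs'.2]; abel
      simp only at hss
      rw [e1, e2, hss]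
  have h3 : (fs H).card * S.card < (fs H).card * S.card := by
    calc (fs H).card * S.card = ∑ c ∈ fs H, (fs H).card * (S.filter (fun s => s - (QuotientAddGroup.mk (s := H) s).out = c)).card := by
          rw [← mul_sum, ← h1]
      _ ≤ ∑ c ∈ fs H, (fs H).card * ((univ : Finset (A ⧸ H)).filter (fun q => q.out + c ∈ S)).card := by
          apply sum_le_sum
          intro c hc
          exact Nat.mul_le_mul_left _ (h2 c hc)
      _ < ∑ c ∈ fs H, S.card := by
          apply sum_lt_sum_of_nonempty (fs_nonempty H)
          intro c hc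
          exact hcon c (mem_fs.mp hc)
      _ = (fs H).card * S.card := by rw [sum_const, smul_eq_mul]
  exact lt_irrefl _ h3

theorem card_fibre (H : AddSubgroup A) [DecidableEq (A ⧸ H)] (q : A ⧸ H) :
    ((univ : Finset A).filter (fun s => QuotientAddGroup.mk (s := H) s = q)).card ≤ (fs H).card := by
  apply card_le_card_of_injOn (fun s => -q.out + s)
  · intro s hs
    rw [mem_coe, mem_filter] at hs
    rw [mem_coe, mem_fs]
    apply (QuotientAddGroup.eq (s := H)).mp
    rw [QuotientAddGroup.out_eq', hs.2]
  · intro s _ s' _ h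
    exact add_left_cancel h

/-- the fibres with many elements -/
theorem card_rich (H : AddSubgroup A) [Fintype (A ⧸ H)] [DecidableEq (A ⧸ H)] (S : Finset A) (k : ℕ) :
    S.card ≤ ((univ : Finset (A ⧸ H)).filter (fun q =>
      k + 1 ≤ (S.filter (fun s => QuotientAddGroup.mk (s := H) s = q)).card)).card * (fs H).card
      + k * Fintype.card (A ⧸ H) := by
  have h1 : S.card = ∑ q : A ⧸ H, (S.filter (fun s => QuotientAddGroup.mk (s := H) s = q)).card :=
    card_eq_sum_card_fiberwise (fun s _ => mem_coe.mpr (mem_univ _))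
  rw [h1, ← sum_filter_add_sum_filter_not (univ : Finset (A ⧸ H)) (fun q =>
      k + 1 ≤ (S.filter (fun s => QuotientAddGroup.mk (s := H) s = q)).card)]
  apply Nat.add_le_add
  · calc _ ≤ ∑ q ∈ (univ : Finset (A ⧸ H)).filter (fun q =>
      k + 1 ≤ (S.filter (fun s => QuotientAddGroup.mk (s := H) s = q)).card), (fs H).card := by
          apply sum_le_sum
          intro q _
          exact (card_le_card (filter_subset_filter _ (subset_univ S))).trans (card_fibre H q)
      _ = _ := by rw [sum_const, smul_eq_mul]
  · calc _ ≤ ∑ q ∈ (univ : Finset (A ⧸ H)).filter (fun q =>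
      ¬ k + 1 ≤ (S.filter (fun s => QuotientAddGroup.mk (s := H) s = q)).card), k := by
          apply sum_le_sum
          intro q hq
          have := (mem_filter.mp hq).2
          omega
      _ ≤ ∑ q : A ⧸ H, k := sum_le_sum_of_subset (subset_univ _)
      _ = _ := by rw [sum_const, smul_eq_mul, card_univ, mul_comm]

/-- distinct elements in rich fibres -/
theorem choose_fibres (H : AddSubgroup A) [DecidableEq (A ⧸ H)] (S : Finset A) (k : ℕ) :
    ∀ (n : ℕ) (W : Multiset (A ⧸ H)), Multiset.card W = n →
    (∀ q ∈ W, k + 1 ≤ (S.filter (fun s => QuotientAddGroup.mk (s := H) s = q)).card) →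
    ∀ U ⊆ S, U.card + n = k + 1 →
    ∃ F ⊆ S, F.card = k + 1 ∧ QuotientAddGroup.mk (s := H) (∑ x ∈ F, x) =
      QuotientAddGroup.mk (s := H) (∑ x ∈ U, x) + W.sum := by
  intro n
  induction n with
  | zero =>
    intro W hW _ U hU hc
    rw [Multiset.card_eq_zero] at hW
    subst hW
    exact ⟨U, hU, by omega, by simp⟩
  | succ n ih =>
    intro W hWn hW U hU hc
    obtain ⟨q, W1, rfl⟩ : ∃ q W1, W = q ::ₘ W1 := by
      rcases Multiset.empty_or_exists_mem W with rfl | ⟨x, hx⟩
      · simp at hWn
      · obtain ⟨W1, h⟩ := Multiset.exists_cons_of_mem hx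
        exact ⟨x, W1, h⟩
    have hn1 : Multiset.card W1 = n := by simpa using hWn
    obtain ⟨s, hs, hsU⟩ : ∃ s ∈ S.filter (fun s => QuotientAddGroup.mk (s := H) s = q), s ∉ U := by
      by_contra hcon
      push Not at hcon
      have h1 := card_le_card (s := S.filter (fun s => QuotientAddGroup.mk (s := H) s = q)) (t := U) hcon
      have h2 := hW q (Multiset.mem_cons_self _ _)
      omega
    rw [mem_filter] at hs
    obtain ⟨F, h1, h2, h3⟩ := ih W1 hn1 (fun q' hq' => hW q' (Multiset.mem_cons_of_mem hq'))
      (insert s U) (insert_subset hs.1 hU) (by rw [card_insert_of_notMem hsU]; omega)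
    refine ⟨F, h1, h2, ?_⟩
    rw [h3, sum_insert hsU, Multiset.sum_cons, QuotientAddGroup.mk_add, hs.2]
    abel

/-- the case of even order -/
theorem zero_sum_half (k : ℕ) (hk : 2 ≤ k) (ε : ℝ) (hε : 0 < ε) (S : Finset A)
    (hn : (k : ℝ) < ε * Fintype.card A) (hS : (1 / 2 + ε) * Fintype.card A ≤ S.card) :
    ∃ F ⊆ S, F.card = k + 1 ∧ ∑ x ∈ F, x = 0 := by
  set n := Fintype.card A with hndef
  have hkS : k ≤ S.card := by
    have h0 : (0 : ℝ) ≤ n := by positivity
    have : (k : ℝ) ≤ S.card := by nlinarith
    exact_mod_cast this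
  obtain ⟨T, hTS, hTc⟩ := exists_subset_card_eq (s := S) (n := k - 2) (by omega)
  set c := ∑ x ∈ T, x with hc
  -- the third element
  obtain ⟨s3, hs3, hs3c⟩ : ∃ s ∈ S \ T, ((univ : Finset A).filter (fun s1 => 2 • s1 = -(c + s))).card ≤ 1 := by
    by_contra hcon
    push Not at hcon
    have h1 : ∑ s ∈ S \ T, ((univ : Finset A).filter (fun s1 => 2 • s1 = -(c + s))).card ≤ n := by
      rw [← card_biUnion]
      · rw [hndef, ← card_univ]
        exact card_le_card (subset_univ _)
      · intro s _ s' _ hss
        rw [Function.onFun, disjoint_left]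
        intro x hx hx'
        rw [mem_filter] at hx hx'
        apply hss
        have := hx.2.symm.trans hx'.2
        have := neg_injective this
        exact add_left_cancel this
    have h2 : (S \ T).card * 2 ≤ ∑ s ∈ S \ T, ((univ : Finset A).filter (fun s1 => 2 • s1 = -(c + s))).card := by
      calc (S \ T).card * 2 = ∑ s ∈ S \ T, 2 := by rw [sum_const, smul_eq_mul]
        _ ≤ _ := sum_le_sum (fun s hs => hcon s hs)
    have h3 : (S \ T).card = S.card - T.card := card_sdiff_of_subset hTS
    have h4 : (S.card : ℝ) * 2 ≤ n + 2 * k := by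
      have : S.card * 2 ≤ n + 2 * k := by omega
      exact_mod_cast this
    nlinarith
  rw [mem_sdiff] at hs3
  set t := -(c + s3) with ht
  set T' := insert s3 T with hT'
  have hT'c : T'.card = k - 1 := by
    rw [hT', card_insert_of_notMem hs3.2, hTc]; omega
  have hT'S : T' ⊆ S := insert_subset hs3.1 hTS
  -- pairs
  set P := S ∩ S.image (fun s => t - s) with hP
  have hPc : 2 * S.card ≤ n + P.card := by
    have h1 := card_union_add_card_inter S (S.image (fun s => t - s))
    rw [← hP] at h1
    have h2 : (S.image (fun s => t - s)).card = S.card :=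
      card_image_of_injective _ (fun a b h => by simpa using h)
    have h3 : (S ∪ S.image (fun s => t - s)).card ≤ n := by
      rw [hndef, ← card_univ]; exact card_le_card (subset_univ _)
    omega
  obtain ⟨s1, hs1, hs1b⟩ : ∃ s1 ∈ P, s1 ∉ ((univ : Finset A).filter (fun s1 => 2 • s1 = t)) ∪
      (T' ∪ T'.image (fun s => t - s)) := by
    by_contra hcon
    push Not at hcon
    have h1 := card_le_card (s := P) hcon
    have h2 := card_union_le ((univ : Finset A).filter (fun s1 => 2 • s1 = t)) (T' ∪ T'.image (fun s => t - s))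
    have h3 := card_union_le T' (T'.image (fun s => t - s))
    have h4 : (T'.image (fun s => t - s)).card ≤ T'.card := card_image_le
    have h5 : 2 * S.card ≤ n + 2 * k := by omega
    have h6 : 2 * (S.card : ℝ) ≤ n + 2 * k := by exact_mod_cast h5
    nlinarith
  rw [hP, mem_inter, mem_image] at hs1
  obtain ⟨hs1S, s', hs'S, hs'⟩ := hs1
  have hs'eq : s' = t - s1 := by rw [← hs']; abel
  rw [mem_union, mem_union, not_or, not_or, mem_filter] at hs1b
  obtain ⟨hb1, hb2, hb3⟩ := hs1b
  have hne : s1 ≠ t - s1 := by
    intro h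
    apply hb1
    refine ⟨mem_univ _, ?_⟩
    rw [two_nsmul]
    nth_rewrite 2 [h]
    abel
  have hnot : t - s1 ∉ T' := by
    intro h
    apply hb3
    rw [mem_image]
    exact ⟨_, h, by abel⟩
  refine ⟨insert s1 (insert (t - s1) T'), ?_, ?_, ?_⟩
  · apply insert_subset hs1S
    apply insert_subset _ hT'S
    rw [← hs'eq]; exact hs'S
  · rw [card_insert_of_notMem, card_insert_of_notMem hnot, hT'c]
    · omega
    · rw [mem_insert, not_or]
      exact ⟨hne, hb2⟩
  · rw [sum_insert, sum_insert hnot, hT', sum_insert hs3.2, ← hc, ht]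
    · abel
    · rw [mem_insert, not_or]
      exact ⟨hne, hb2⟩

end Pool.Agent.R187.SH
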