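import Mathlib
import Pool.Agent.R187.SH.Quot

set_option autoImplicit false

open Finset

namespace Pool.Agent.R187.SH

open Pool.Agent.Helper450.Kneser

theorem exists_zero_sum (k : ℕ) (hk : 2 ≤ k) (ε : ℝ) (hε : 0 < ε) :
    ∃ N : ℕ, ∀ (A : Type) [AddCommGroup A] [Fintype A] [DecidableEq A], N ≤ Fintype.card A →
    ∀ p : ℕ, 2 ≤ p → (∀ l : ℕ, l.Prime → l ∣ Fintype.card A → l ∣ k → p ≤ l) →
    ∀ S : Finset A, (1 / p + ε) * Fintype.card A ≤ S.card →
    ∃ F ⊆ S, F.card = k + 1 ∧ ∃ σ : A, ∑ x ∈ F, x = k • σ := by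
  classical
  set Q0 := cornersTheoremBound (ε / 2 / (2 * (2 * k + 3 : ℕ))) with hQ0
  obtain ⟨N1, hN1⟩ := exists_nat_gt ((k : ℝ) / ε)
  refine ⟨(Q0 + 1) * (N1 + 1), ?_⟩
  intro A _ _ _ hA p hp2 hp S hS
  set n := Fintype.card A with hn
  have hεN : (k : ℝ) < ε * N1 := by
    rw [div_lt_iff₀ hε] at hN1; linarith
  rcases Nat.eq_or_lt_of_le hp2 with h2 | h3
  · -- p = 2
    subst h2
    have hnN : (N1 : ℝ) ≤ n := by
      have : N1 ≤ n := by nlinarith
      exact_mod_cast this
    obtain ⟨F, h1, h2, h3⟩ := zero_sum_half k hk ε hε S (by nlinarith) (by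
      rw [← hn]; push_cast at hS ⊢; exact hS)
    exact ⟨F, h1, h2, 0, by rw [h3, smul_zero]⟩
  -- p ≥ 3
  set H : AddSubgroup A := (nsmulAddMonoidHom (α := A) k).range with hH
  have hmemH : ∀ x : A, k • x ∈ H := fun x => ⟨x, rfl⟩
  have hex : ∀ x ∈ H, ∃ σ : A, x = k • σ := by
    rintro x ⟨σ, rfl⟩; exact ⟨σ, rfl⟩
  have hidx := card_eq_index H
  have hQcard : Fintype.card (A ⧸ H) = H.index := by
    rw [AddSubgroup.index, Nat.card_eq_fintype_card]
  have hkQ : ∀ x : A ⧸ H, k • x = 0 := by
    intro x
    induction x using QuotientAddGroup.induction_on with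
    | H z =>
      rw [← QuotientAddGroup.mk_nsmul]
      exact (QuotientAddGroup.eq_zero_iff _).mpr (hmemH z)
  have hM : 0 < (fs H).card := fs_card_pos H
  have hprimes : ∀ l : ℕ, l.Prime → l ∣ Fintype.card (A ⧸ H) → p ≤ l := by
    intro l hl hld
    apply hp l hl
    · rw [hn, ← hidx, ← hQcard]
      exact Dvd.dvd.mul_right hld _
    · have := Fact.mk hl
      obtain ⟨x, hx⟩ := exists_prime_addOrderOf_dvd_card' (G := A ⧸ H) l (by
        rwa [Nat.card_eq_fintype_card])
      rw [← hx]
      exact addOrderOf_dvd_of_nsmul_eq_zero (hkQ x)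
  have hodd : ∀ d : A ⧸ H, 2 • d = 0 → d = 0 := by
    intro d hd
    by_contra hne
    have h1 : addOrderOf d = 2 := addOrderOf_eq_prime hd hne
    have h2 : 2 ∣ Fintype.card (A ⧸ H) := by
      rw [← h1]; exact addOrderOf_dvd_card
    have := hprimes 2 Nat.prime_two h2
    omega
  have hp0 : (0 : ℝ) < p := by
    have : 0 < p := by omega
    exact_mod_cast this
  have hcardR : (n : ℝ) = (Fintype.card (A ⧸ H) : ℝ) * (fs H).card := by
    rw [hQcard]; exact_mod_cast hidx.symm
  have hMR : (0 : ℝ) < (fs H).card := by exact_mod_cast hM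
  by_cases hQ : Q0 ≤ Fintype.card (A ⧸ H)
  · -- large quotient: a section
    obtain ⟨c, hcH, hcS⟩ := exists_section H S
    set R := (univ : Finset (A ⧸ H)).filter (fun q => q.out + c ∈ S) with hR
    have hRc : (1 / p + ε) * Fintype.card (A ⧸ H) ≤ R.card := by
      have h1 : ((1 / p + ε) * Fintype.card (A ⧸ H)) * (fs H).card ≤ (R.card : ℝ) * (fs H).card := by
        calc ((1 / p + ε) * Fintype.card (A ⧸ H)) * (fs H).card
            = (1 / p + ε) * (Fintype.card (A ⧸ H) * (fs H).card) := by ring
          _ = (1 / p + ε) * n := by rw [← hcardR]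
          _ ≤ S.card := hS
          _ ≤ ((fs H).card * R.card : ℕ) := by exact_mod_cast hcS
          _ = (R.card : ℝ) * (fs H).card := by push_cast; ring
      exact le_of_mul_le_mul_right h1 hMR
    obtain ⟨F, hF1, hF2, hF3⟩ := zero_sum_distinct k p (by omega) (by omega) ε hε hkQ hodd
      hprimes hQ R hRc
    have hinj : Function.Injective (fun q : A ⧸ H => q.out + c) := by
      intro q q' h
      have h' : q.out = q'.out := add_right_cancel h
      rw [← QuotientAddGroup.out_eq' q, ← QuotientAddGroup.out_eq' q', h']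
    refine ⟨F.image (fun q => q.out + c), ?_, ?_, ?_⟩
    · intro x hx
      obtain ⟨q, hq, rfl⟩ := mem_image.mp hx
      exact (mem_filter.mp (hF1 hq)).2
    · rw [card_image_of_injective _ hinj, hF2]
    · apply hex
      rw [sum_image (fun a _ b _ h => hinj h)]
      apply (QuotientAddGroup.eq_zero_iff _).mp
      have hc0 : QuotientAddGroup.mk (s := H) c = 0 := (QuotientAddGroup.eq_zero_iff _).mpr hcH
      have : QuotientAddGroup.mk (s := H) (∑ q ∈ F, (q.out + c)) = ∑ q ∈ F, q := by
        have e1 := map_sum (QuotientAddGroup.mk' H) (fun q : A ⧸ H => q.out + c) F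
        rw [QuotientAddGroup.mk'_apply] at e1
        rw [e1]
        apply sum_congr rfl
        intro q _
        rw [QuotientAddGroup.mk'_apply, QuotientAddGroup.mk_add, hc0, add_zero,
          QuotientAddGroup.out_eq']
      rw [this, hF3]
  · -- small quotient: rich fibres
    push Not at hQ
    have hrich := card_rich H S k
    set R := (univ : Finset (A ⧸ H)).filter (fun q =>
      k + 1 ≤ (S.filter (fun s => QuotientAddGroup.mk (s := H) s = q)).card) with hR
    have hMbig : N1 < (fs H).card := by
      by_contra hcon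
      push Not at hcon
      have h1 : n ≤ Q0 * N1 := by
        rw [hn, ← hidx, ← hQcard]
        exact Nat.mul_le_mul hQ.le hcon
      nlinarith
    have hMbig' : (k : ℝ) < ε * (fs H).card := by
      have : (N1 : ℝ) < (fs H).card := by exact_mod_cast hMbig
      nlinarith
    have hQpos : (0 : ℝ) < Fintype.card (A ⧸ H) := by
      have : 0 < Fintype.card (A ⧸ H) := Fintype.card_pos
      exact_mod_cast this
    have hRc : Fintype.card (A ⧸ H) < p * R.card := by
      have h1 : (S.card : ℝ) ≤ R.card * (fs H).card + k * Fintype.card (A ⧸ H) := by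
        exact_mod_cast hrich
      have h2 : (1 / p + ε) * (Fintype.card (A ⧸ H) * (fs H).card) ≤
          R.card * (fs H).card + k * Fintype.card (A ⧸ H) := by
        rw [← hcardR]; exact hS.trans h1
      have h3 : (1 / (p : ℝ)) * (Fintype.card (A ⧸ H) : ℝ) * ((fs H).card : ℝ) <
          (R.card : ℝ) * ((fs H).card : ℝ) := by
        nlinarith
      have h4 : (1 / p : ℝ) * Fintype.card (A ⧸ H) < R.card := lt_of_mul_lt_mul_right h3 hMR.le
      have h5 : (Fintype.card (A ⧸ H) : ℝ) < p * R.card := by
        rw [one_div, inv_mul_lt_iff₀ hp0] at h4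
        exact h4
      exact_mod_cast h5
    obtain ⟨m, hm1, hm2, hm3⟩ := zero_sum k p hkQ (by omega) hprimes R hRc
    obtain ⟨F, hF1, hF2, hF3⟩ := choose_fibres H S k (k + 1) m hm1
      (fun q hq => (mem_filter.mp (hm2 q hq)).2) ∅ (empty_subset _) (by simp)
    refine ⟨F, hF1, hF2, hex _ ?_⟩
    apply (QuotientAddGroup.eq_zero_iff _).mp
    rw [hF3, hm3, sum_empty, QuotientAddGroup.mk_zero, add_zero]

section Graph

variable {A : Type*} [AddCommGroup A] [Fintype A] [DecidableEq A]

/-- The edges of the sum `k`-graph of `S`: the `k`-subsets of `A` whose sum is in `S`. -/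
def edges (k : ℕ) (S : Finset A) : Finset (Finset A) :=
  ((univ : Finset A).powersetCard k).filter (fun e => ∑ x ∈ e, x ∈ S)

theorem mem_edges {k : ℕ} {S : Finset A} {e : Finset A} :
    e ∈ edges k S ↔ e.card = k ∧ ∑ x ∈ e, x ∈ S := by
  rw [edges, mem_filter, mem_powersetCard]
  simp

/-- Every set of `k + 1` vertices contains `k` vertices which do not form an edge. -/
def CliqueFree (k : ℕ) (S : Finset A) : Prop :=
  ∀ T : Finset A, T.card = k + 1 → ∃ e ⊆ T, e.card = k ∧ e ∉ edges k S

/-- `k + 1` distinct elements of `S` with sum in `k A` give a clique -/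
theorem clique_of_sum (k : ℕ) (S F : Finset A) (hF : F ⊆ S) (hc : F.card = k + 1) (σ : A)
    (hσ : ∑ x ∈ F, x = k • σ) : ¬ CliqueFree k S := by
  intro h
  have hinj : Function.Injective (fun s : A => σ - s) := fun a b hab => by simpa using hab
  obtain ⟨e, he, hek, hes⟩ := h (F.image (fun s => σ - s)) (by
    rw [card_image_of_injective _ hinj, hc])
  apply hes
  rw [mem_edges]
  refine ⟨hek, ?_⟩
  set T := F.image (fun s => σ - s) with hT
  have hTc : T.card = k + 1 := by rw [hT, card_image_of_injective _ hinj, hc]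
  have hTsum : ∑ x ∈ T, x = σ := by
    rw [hT, sum_image (fun a _ b _ hab => hinj hab), sum_sub_distrib, sum_const, hc, hσ, add_smul,
      one_smul]
    abel
  have hd : (T \ e).card = 1 := by
    rw [card_sdiff_of_subset he, hTc, hek]; omega
  obtain ⟨y, hy⟩ := card_eq_one.mp hd
  have hyT : y ∈ T := by
    have : y ∈ T \ e := by rw [hy]; exact mem_singleton_self _
    exact (mem_sdiff.mp this).1
  have hsum : ∑ x ∈ e, x = σ - y := by
    have := sum_sdiff (f := fun x : A => x) he
    rw [hy, sum_singleton, hTsum] at this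
    rw [← this]; abel
  rw [hsum]
  obtain ⟨s, hs, rfl⟩ := mem_image.mp hyT
  rw [sub_sub_cancel]
  exact hF hs

theorem edges_count (j : ℕ) (S : Finset A) :
    (j + 1) * (edges (j + 1) S).card ≤ (Fintype.card A).choose j * S.card ∧
    (Fintype.card A).choose j * S.card ≤
      (j + 1) * (edges (j + 1) S).card + (Fintype.card A).choose j * j := by
  have hdc := sum_card_bipartiteAbove_eq_sum_card_bipartiteBelow
    (s := edges (j + 1) S) (t := (univ : Finset A).powersetCard j) (fun e f => f ⊆ e)
  have hL : ∑ a ∈ edges (j + 1) S, (bipartiteAbove (fun e f => f ⊆ e)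
      ((univ : Finset A).powersetCard j) a).card = (j + 1) * (edges (j + 1) S).card := by
    rw [sum_congr rfl (g := fun _ => j + 1), sum_const, smul_eq_mul, mul_comm]
    intro e he
    have he' := (mem_edges.mp he).1
    have : bipartiteAbove (fun e f => f ⊆ e) ((univ : Finset A).powersetCard j) e =
        e.powersetCard j := by
      ext f
      rw [mem_bipartiteAbove, mem_powersetCard, mem_powersetCard]
      simp [and_comm]
    rw [this, card_powersetCard, he', Nat.choose_succ_self_right]
  have hfib : ∀ f ∈ (univ : Finset A).powersetCard j,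
      (bipartiteBelow (fun e f => f ⊆ e) (edges (j + 1) S) f).card =
      (((univ : Finset A).filter (fun x => ∑ y ∈ f, y + x ∈ S)) \ f).card := by
    intro f hf
    have hfc := (mem_powersetCard.mp hf).2
    symm
    apply card_bij (fun x _ => insert x f)
    · intro x hx
      rw [mem_sdiff, mem_filter] at hx
      rw [mem_bipartiteBelow, mem_edges]
      refine ⟨⟨by rw [card_insert_of_notMem hx.2, hfc], ?_⟩, subset_insert _ _⟩
      rw [sum_insert hx.2, add_comm]
      exact hx.1.2
    · intro x hx y hy hxy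
      rw [mem_sdiff] at hx hy
      have : x ∈ insert y f := by rw [← hxy]; exact mem_insert_self _ _
      rcases mem_insert.mp this with h | h
      · exact h
      · exact absurd h hx.2
    · intro e he
      rw [mem_bipartiteBelow, mem_edges] at he
      obtain ⟨⟨hec, hes⟩, hfe⟩ := he
      have hd : (e \ f).card = 1 := by
        rw [card_sdiff_of_subset hfe, hec, hfc]; omega
      obtain ⟨x, hx⟩ := card_eq_one.mp hd
      have hxe : x ∈ e \ f := by rw [hx]; exact mem_singleton_self _
      refine ⟨x, ?_, ?_⟩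
      · rw [mem_sdiff, mem_filter]
        refine ⟨⟨mem_univ _, ?_⟩, (mem_sdiff.mp hxe).2⟩
        have := sum_sdiff (f := fun x : A => x) hfe
        rw [hx, sum_singleton] at this
        rw [add_comm, this]
        exact hes
      · ext z
        rw [mem_insert]
        constructor
        · rintro (rfl | hz)
          · exact (mem_sdiff.mp hxe).1
          · exact hfe hz
        · intro hz
          by_cases hzf : z ∈ f
          · exact Or.inr hzf
          · left
            have : z ∈ e \ f := mem_sdiff.mpr ⟨hz, hzf⟩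
            rw [hx, mem_singleton] at this
            exact this
  have hcf : ∀ f : Finset A, ((univ : Finset A).filter (fun x => ∑ y ∈ f, y + x ∈ S)).card = S.card := by
    intro f
    apply card_bij (fun x _ => ∑ y ∈ f, y + x)
    · intro x hx; exact (mem_filter.mp hx).2
    · intro x _ y _ h; exact add_left_cancel h
    · intro s hs
      exact ⟨-∑ y ∈ f, y + s, by rw [mem_filter]; exact ⟨mem_univ _, by simpa using hs⟩, by abel⟩
  have hup : ∀ f ∈ (univ : Finset A).powersetCard j,
      (bipartiteBelow (fun e f => f ⊆ e) (edges (j + 1) S) f).card ≤ S.card := by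
    intro f hf
    rw [hfib f hf, ← hcf f]
    exact card_le_card sdiff_subset
  have hlow : ∀ f ∈ (univ : Finset A).powersetCard j,
      S.card ≤ (bipartiteBelow (fun e f => f ⊆ e) (edges (j + 1) S) f).card + j := by
    intro f hf
    rw [hfib f hf, ← hcf f, ← (mem_powersetCard.mp hf).2]
    have := le_card_sdiff f ((univ : Finset A).filter (fun x => ∑ y ∈ f, y + x ∈ S))
    omega
  have hcard : ((univ : Finset A).powersetCard j).card = (Fintype.card A).choose j := by
    rw [card_powersetCard, card_univ]
  rw [hL] at hdc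
  rw [hdc]
  constructor
  · calc _ ≤ ∑ f ∈ (univ : Finset A).powersetCard j, S.card := sum_le_sum hup
      _ = _ := by rw [sum_const, smul_eq_mul, hcard]
  · calc (Fintype.card A).choose j * S.card = ∑ f ∈ (univ : Finset A).powersetCard j, S.card := by
          rw [sum_const, smul_eq_mul, hcard]
      _ ≤ ∑ f ∈ (univ : Finset A).powersetCard j,
          ((bipartiteBelow (fun e f => f ⊆ e) (edges (j + 1) S) f).card + j) := sum_le_sum hlow
      _ = _ := by rw [sum_add_distrib, sum_const, smul_eq_mul, hcard]

/-- the density of the sum `k`-graph is that of `S` up to `O(1/n)` -/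
theorem edges_density (j : ℕ) (S : Finset A) (hj : j ≤ Fintype.card A) :
    (Fintype.card A - j) * (edges (j + 1) S).card ≤ (Fintype.card A).choose (j + 1) * S.card ∧
    (Fintype.card A).choose (j + 1) * S.card ≤ (Fintype.card A - j) * (edges (j + 1) S).card +
      (Fintype.card A).choose (j + 1) * j := by
  obtain ⟨h1, h2⟩ := edges_count j S
  have h3 := Nat.choose_succ_right_eq (Fintype.card A) j
  set n := Fintype.card A
  set E := (edges (j + 1) S).card
  constructor
  · have h4 : (j + 1) * ((n - j) * E) ≤ (j + 1) * (n.choose (j + 1) * S.card) := by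
      calc (j + 1) * ((n - j) * E) = (n - j) * ((j + 1) * E) := by ring
        _ ≤ (n - j) * (n.choose j * S.card) := Nat.mul_le_mul_left _ h1
        _ = (n.choose j * (n - j)) * S.card := by ring
        _ = _ := by rw [← h3]; ring
    exact Nat.le_of_mul_le_mul_left h4 (by omega)
  · have h4 : (j + 1) * (n.choose (j + 1) * S.card) ≤
        (j + 1) * ((n - j) * E + n.choose (j + 1) * j) := by
      calc (j + 1) * (n.choose (j + 1) * S.card) = (n.choose (j + 1) * (j + 1)) * S.card := by ring
        _ = (n - j) * (n.choose j * S.card) := by rw [h3]; ring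
        _ ≤ (n - j) * ((j + 1) * E + n.choose j * j) := Nat.mul_le_mul_left _ h2
        _ = (j + 1) * ((n - j) * E) + (n.choose j * (n - j)) * j := by ring
        _ = _ := by rw [← h3]; ring
    exact Nat.le_of_mul_le_mul_left h4 (by omega)

theorem exists_functional' (K V : Type*) [Field K] [AddCommGroup V] [Module K V] (v : V)
    (hv : v ≠ 0) : ∃ ψ : V →+ K, ψ v = 1 := by
  obtain ⟨ψ, hψ⟩ : ∃ ψ : Module.Dual K V, ψ v ≠ 0 := by
    by_contra hcon
    push Not at hcon
    exact hv ((Module.forall_dual_apply_eq_zero_iff K _).mp hcon)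
  refine ⟨((ψ v)⁻¹ • ψ : Module.Dual K V).toAddMonoidHom, ?_⟩
  simp only [LinearMap.toAddMonoidHom_coe, LinearMap.smul_apply, smul_eq_mul]
  exact inv_mul_cancel₀ hψ

theorem exists_functional {B : Type*} [AddCommGroup B] (p : ℕ) (hp : p.Prime)
    (hB : ∀ x : B, p • x = 0) (v : B) (hv : v ≠ 0) : ∃ ψ : B →+ ZMod p, ψ v = 1 := by
  have := Fact.mk hp
  exact @exists_functional' (ZMod p) B _ _ (AddCommGroup.zmodModule hB) v hv

/-- a homomorphism onto the group of prime order `p` -/
theorem exists_hom (p : ℕ) (hp : p.Prime) (hd : p ∣ Fintype.card A) :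
    ∃ φ : A →+ ZMod p, ∃ a : A, φ a = 1 := by
  classical
  have := Fact.mk hp
  set H : AddSubgroup A := (nsmulAddMonoidHom (α := A) p).range with hH
  have hkQ : ∀ x : A ⧸ H, p • x = 0 := by
    intro x
    induction x using QuotientAddGroup.induction_on with
    | H z =>
      rw [← QuotientAddGroup.mk_nsmul]
      exact (QuotientAddGroup.eq_zero_iff _).mpr ⟨z, rfl⟩
  obtain ⟨v, hv⟩ : ∃ v : A, v ∉ H := by
    by_contra hcon
    push Not at hcon
    have hsurj : Function.Surjective (nsmulAddMonoidHom (α := A) p) := fun x => hcon x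
    have hinj := Finite.injective_iff_surjective.mpr hsurj
    obtain ⟨x, hx⟩ := exists_prime_addOrderOf_dvd_card' (G := A) p (by
      rwa [Nat.card_eq_fintype_card])
    have h1 : p • x = 0 := by rw [← hx]; exact addOrderOf_nsmul_eq_zero x
    have h2 : x = 0 := hinj (by simpa using h1)
    rw [h2, addOrderOf_zero] at hx
    exact hp.one_lt.ne hx
  have hv0 : QuotientAddGroup.mk (s := H) v ≠ 0 := by
    intro h
    exact hv ((QuotientAddGroup.eq_zero_iff v).mp h)
  obtain ⟨ψ, hψ⟩ := exists_functional p hp hkQ _ hv0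
  exact ⟨ψ.comp (QuotientAddGroup.mk' H), v, hψ⟩

/-- the extremal example: a fibre of a homomorphism onto the group of order `p` -/
theorem exists_cliqueFree' (k p : ℕ) (hp : p.Prime) (hd : p ∣ Fintype.card A) (_hpk : p ∣ k) :
    ∃ S : Finset A, (∃ φ : A →+ ZMod p, ∀ x, x ∈ S ↔ φ x = 1) ∧ p * S.card = Fintype.card A := by
  classical
  have := Fact.mk hp
  obtain ⟨φ, a, ha⟩ := exists_hom (A := A) p hp hd
  refine ⟨(univ : Finset A).filter (fun x => φ x = 1), ⟨φ, fun x => by simp⟩, ?_⟩
  -- fibres of φ have the same size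
  have h1 : Fintype.card A = ∑ c : ZMod p, ((univ : Finset A).filter (fun x => φ x = c)).card := by
    rw [← card_univ]
    exact card_eq_sum_card_fiberwise (fun _ _ => mem_coe.mpr (mem_univ _))
  have h2 : ∀ c : ZMod p, ((univ : Finset A).filter (fun x => φ x = c)).card =
      ((univ : Finset A).filter (fun x => φ x = 1)).card := by
    intro c
    apply card_bij (fun x _ => x + (1 - c).val • a)
    · intro x hx
      rw [mem_filter] at hx ⊢
      refine ⟨mem_univ _, ?_⟩
      rw [map_add, map_nsmul, ha, hx.2, nsmul_eq_mul, mul_one, ZMod.natCast_zmod_val]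
      ring
    · intro x _ y _ h; exact add_right_cancel h
    · intro y hy
      rw [mem_filter] at hy
      refine ⟨y - (1 - c).val • a, ?_, by abel⟩
      rw [mem_filter]
      refine ⟨mem_univ _, ?_⟩
      rw [map_sub, map_nsmul, ha, hy.2, nsmul_eq_mul, mul_one, ZMod.natCast_zmod_val]
      ring
  rw [h1, sum_congr rfl (fun c _ => h2 c), sum_const, card_univ, ZMod.card, smul_eq_mul]

/-- orders prime to `k` -/
theorem card_le_of_coprime (k : ℕ) (S : Finset A) (hS : CliqueFree k S)
    (hc : Nat.Coprime (Fintype.card A) k) : S.card ≤ k := by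
  by_contra hcon
  push Not at hcon
  obtain ⟨F, hF, hFc⟩ := exists_subset_card_eq (s := S) (n := k + 1) hcon
  obtain ⟨σ, hσ⟩ : ∃ σ : A, k • σ = ∑ x ∈ F, x := by
    have := (nsmulCoprime (G := A) (n := k) (by rwa [Nat.card_eq_fintype_card])).surjective
      (∑ x ∈ F, x)
    obtain ⟨σ, h⟩ := this
    exact ⟨σ, h⟩
  exact clique_of_sum k S F hF hFc σ hσ.symm hS

end Graph

end Pool.Agent.R187.SH
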