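import Mathlib
import Pool.Agent.R187.SH.Main

set_option autoImplicit false

open Finset

namespace Pool.Agent.R187.SH

open Pool.Agent.Helper450.Kneser

section

variable {A : Type*} [AddCommGroup A] [Fintype A] [DecidableEq A]

/-- The edges of the `k`-graph on `A × ZMod t` (each element of `A` is used `t` times) of the
`k`-sets for which the sum of the first coordinates is in `S`. -/
def blowEdges (k t : ℕ) [NeZero t] (S : Finset A) : Finset (Finset (A × ZMod t)) :=
  ((univ : Finset (A × ZMod t)).powersetCard k).filter (fun e => ∑ x ∈ e, x.1 ∈ S)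

theorem mem_blowEdges {k t : ℕ} [NeZero t] {S : Finset A} {e : Finset (A × ZMod t)} :
    e ∈ blowEdges k t S ↔ e.card = k ∧ ∑ x ∈ e, x.1 ∈ S := by
  rw [blowEdges, mem_filter, mem_powersetCard]
  simp

/-- no `k + 1` vertices span a complete `k`-graph -/
def BlowFree (k t : ℕ) [NeZero t] (S : Finset A) : Prop :=
  ∀ T : Finset (A × ZMod t), T.card = k + 1 → ∃ e ⊆ T, e.card = k ∧ e ∉ blowEdges k t S

theorem blowEdges_eq (k t : ℕ) [NeZero t] (S : Finset A) :
    blowEdges k t S = edges k (S ×ˢ (univ : Finset (ZMod t))) := by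
  ext e
  rw [mem_blowEdges, mem_edges, mem_product]
  simp [Prod.fst_sum]

theorem blow_clique (k t : ℕ) [NeZero t] (S : Finset A) (σ : A) (T : Finset (A × ZMod t))
    (hT : T.card = k + 1) (hs : ∑ x ∈ T, x.1 = σ) (hx : ∀ x ∈ T, σ - x.1 ∈ S) :
    ¬ BlowFree k t S := by
  intro h
  obtain ⟨e, he, hek, hes⟩ := h T hT
  apply hes
  rw [mem_blowEdges]
  refine ⟨hek, ?_⟩
  have hd : (T \ e).card = 1 := by
    rw [card_sdiff_of_subset he, hT, hek]; omega
  obtain ⟨y, hy⟩ := card_eq_one.mp hd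
  have hyT : y ∈ T := by
    have : y ∈ T \ e := by rw [hy]; exact mem_singleton_self _
    exact (mem_sdiff.mp this).1
  have hsum : ∑ x ∈ e, x.1 = σ - y.1 := by
    have := sum_sdiff (f := fun x : A × ZMod t => x.1) he
    rw [hy, sum_singleton, hs] at this
    rw [← this]; abel
  rw [hsum]
  exact hx y hyT

theorem blow_clique_distinct (k t : ℕ) [NeZero t] (S F : Finset A) (hF : F ⊆ S)
    (hc : F.card = k + 1) (σ : A) (hσ : ∑ x ∈ F, x = k • σ) : ¬ BlowFree k t S := by
  have hinj : Function.Injective (fun s : A => ((σ - s, (0 : ZMod t)) : A × ZMod t)) :=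
    fun a b hab => by simpa using hab
  apply blow_clique k t S σ (F.image (fun s => (σ - s, (0 : ZMod t))))
  · rw [card_image_of_injective _ hinj, hc]
  · rw [sum_image (fun a _ b _ hab => hinj hab)]
    simp only
    rw [sum_sub_distrib, sum_const, hc, hσ, add_smul, one_smul]
    abel
  · intro x hx
    obtain ⟨s, hs, rfl⟩ := mem_image.mp hx
    simp only [sub_sub_cancel]
    exact hF hs

/-- with `t ≥ k + 1` copies of each element repetitions are allowed -/
theorem blow_choose (k t : ℕ) [NeZero t] (ht : k + 1 ≤ t) :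
    ∀ (n : ℕ) (W : Multiset A), Multiset.card W = n → ∀ U : Finset (A × ZMod t), U.card + n = k + 1 →
    ∃ T : Finset (A × ZMod t), T.card = k + 1 ∧ (∑ x ∈ T, x.1 = ∑ x ∈ U, x.1 + W.sum) ∧
      ∀ x ∈ T, x ∈ U ∨ x.1 ∈ W := by
  intro n
  induction n with
  | zero =>
    intro W hW U hc
    rw [Multiset.card_eq_zero] at hW
    subst hW
    exact ⟨U, by omega, by simp, fun x hx => Or.inl hx⟩
  | succ n ih =>
    intro W hWn U hc
    obtain ⟨q, W1, rfl⟩ : ∃ q W1, W = q ::ₘ W1 := by
      rcases Multiset.empty_or_exists_mem W with rfl | ⟨x, hx⟩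
      · simp at hWn
      · obtain ⟨W1, h⟩ := Multiset.exists_cons_of_mem hx
        exact ⟨x, W1, h⟩
    have hn1 : Multiset.card W1 = n := by simpa using hWn
    obtain ⟨j, hj⟩ : ∃ j : ZMod t, (q, j) ∉ U := by
      by_contra hcon
      push Not at hcon
      have h1 : ((univ : Finset (ZMod t)).image (fun j => (q, j))).card ≤ U.card := by
        apply card_le_card
        intro x hx
        obtain ⟨j, _, rfl⟩ := mem_image.mp hx
        exact hcon j
      rw [card_image_of_injective _ (fun a b hab => by simpa using hab), card_univ, ZMod.card] at h1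
      omega
    obtain ⟨T, h1, h2, h3⟩ := ih W1 hn1 (insert (q, j) U) (by
      rw [card_insert_of_notMem hj]; omega)
    refine ⟨T, h1, ?_, ?_⟩
    · rw [h2, sum_insert hj, Multiset.sum_cons]
      abel
    · intro x hx
      rcases h3 x hx with h | h
      · rcases mem_insert.mp h with rfl | h
        · right; simp
        · exact Or.inl h
      · exact Or.inr (Multiset.mem_cons_of_mem h)

/-- exact bound for blow-ups with at least `k + 1` copies of each element -/
theorem blow_exact (k t : ℕ) [NeZero t] (ht : k + 1 ≤ t) (hk : 0 < k) (p : ℕ)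
    (hp : ∀ l : ℕ, l.Prime → l ∣ Fintype.card A → l ∣ k → p ≤ l) (S : Finset A)
    (hS : BlowFree k t S) : p * S.card ≤ Fintype.card A := by
  classical
  by_contra hcon
  push Not at hcon
  set H : AddSubgroup A := (nsmulAddMonoidHom (α := A) k).range with hH
  have hex : ∀ x ∈ H, ∃ σ : A, x = k • σ := by
    rintro x ⟨σ, rfl⟩; exact ⟨σ, rfl⟩
  have hidx := card_eq_index H
  have hQcard : Fintype.card (A ⧸ H) = H.index := by
    rw [AddSubgroup.index, Nat.card_eq_fintype_card]
  have hkQ : ∀ x : A ⧸ H, k • x = 0 := by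
    intro x
    induction x using QuotientAddGroup.induction_on with
    | H z =>
      rw [← QuotientAddGroup.mk_nsmul]
      exact (QuotientAddGroup.eq_zero_iff _).mpr ⟨z, rfl⟩
  have hprimes : ∀ l : ℕ, l.Prime → l ∣ Fintype.card (A ⧸ H) → p ≤ l := by
    intro l hl hld
    apply hp l hl
    · rw [← hidx, ← hQcard]
      exact Dvd.dvd.mul_right hld _
    · have := Fact.mk hl
      obtain ⟨x, hx⟩ := exists_prime_addOrderOf_dvd_card' (G := A ⧸ H) l (by
        rwa [Nat.card_eq_fintype_card])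
      rw [← hx]
      exact addOrderOf_dvd_of_nsmul_eq_zero (hkQ x)
  have hM : 0 < (fs H).card := fs_card_pos H
  set R := S.image (fun s => QuotientAddGroup.mk (s := H) s) with hR
  have hSR : S.card ≤ (fs H).card * R.card := by
    apply card_le_mul_card_image
    intro q _
    exact (card_le_card (filter_subset_filter _ (subset_univ S))).trans (card_fibre H q)
  have hRc : Fintype.card (A ⧸ H) < p * R.card := by
    have h1 : Fintype.card (A ⧸ H) * (fs H).card < p * R.card * (fs H).card := by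
      calc Fintype.card (A ⧸ H) * (fs H).card = Fintype.card A := by rw [hQcard, hidx]
        _ < p * S.card := hcon
        _ ≤ p * ((fs H).card * R.card) := Nat.mul_le_mul_left _ hSR
        _ = _ := by ring
    exact Nat.lt_of_mul_lt_mul_right h1
  obtain ⟨m, hm1, hm2, hm3⟩ := zero_sum k p hkQ hk hprimes R hRc
  -- lift
  have hlift : ∀ q : A ⧸ H, ∃ s : A, QuotientAddGroup.mk (s := H) s = q ∧ (q ∈ R → s ∈ S) := by
    intro q
    by_cases hq : q ∈ R
    · obtain ⟨s, hs, hsq⟩ := mem_image.mp hq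
      exact ⟨s, hsq, fun _ => hs⟩
    · exact ⟨q.out, QuotientAddGroup.out_eq' q, fun h => absurd h hq⟩
  choose ℓ hℓ1 hℓ2 using hlift
  have hsumH : (m.map ℓ).sum ∈ H := by
    apply (QuotientAddGroup.eq_zero_iff _).mp
    have e1 := map_multiset_sum (QuotientAddGroup.mk' H) (m.map ℓ)
    rw [QuotientAddGroup.mk'_apply] at e1
    rw [e1, Multiset.map_map]
    have : Multiset.map (⇑(QuotientAddGroup.mk' H) ∘ ℓ) m = m := by
      conv_rhs => rw [← Multiset.map_id m]
      apply Multiset.map_congr rfl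
      intro x _
      simp only [Function.comp_apply, QuotientAddGroup.mk'_apply, id]
      exact hℓ1 x
    rw [this, hm3]
  obtain ⟨σ, hσ⟩ := hex _ hsumH
  obtain ⟨T, hT1, hT2, hT3⟩ := blow_choose k t ht (k + 1) ((m.map ℓ).map (fun s => σ - s))
    (by simp [hm1]) ∅ (by simp)
  apply blow_clique k t S σ T hT1 ?_ ?_ hS
  · rw [hT2, sum_empty, zero_add, Multiset.sum_map_sub]
    simp only [Multiset.map_const', Multiset.sum_replicate, Multiset.card_map, hm1, Multiset.map_id']
    rw [hσ, add_smul, one_smul]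
    abel
  · intro x hx
    rcases hT3 x hx with h | h
    · simp at h
    · rw [Multiset.mem_map] at h
      obtain ⟨s, hs, hsx⟩ := h
      rw [Multiset.mem_map] at hs
      obtain ⟨q, hq, rfl⟩ := hs
      rw [← hsx, sub_sub_cancel]
      exact hℓ2 q (hm2 q hq)

theorem blow_density (j t : ℕ) [NeZero t] (S : Finset A) (hj : j ≤ Fintype.card A * t) :
    ((Fintype.card A * t : ℕ) - j : ℝ) * (blowEdges (j + 1) t S).card ≤
      ((Fintype.card A * t).choose (j + 1) : ℝ) * (S.card * t) ∧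
    ((Fintype.card A * t).choose (j + 1) : ℝ) * (S.card * t) ≤
      ((Fintype.card A * t : ℕ) - j : ℝ) * (blowEdges (j + 1) t S).card +
      ((Fintype.card A * t).choose (j + 1) : ℝ) * j := by
  have hcard : Fintype.card (A × ZMod t) = Fintype.card A * t := by
    rw [Fintype.card_prod, ZMod.card]
  obtain ⟨h1, h2⟩ := edges_density (A := A × ZMod t) j (S ×ˢ (univ : Finset (ZMod t))) (by
    rw [hcard]; exact hj)
  rw [← blowEdges_eq, hcard, card_product, card_univ, ZMod.card] at h1 h2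
  constructor
  · rw [← Nat.cast_sub hj]; exact_mod_cast h1
  · rw [← Nat.cast_sub hj]; exact_mod_cast h2

/-- the extremal example for blow-ups -/
theorem exists_blowFree (k t p : ℕ) [NeZero t] (hp : p.Prime) (hd : p ∣ Fintype.card A)
    (hpk : p ∣ k) : ∃ S : Finset A, BlowFree k t S ∧ p * S.card = Fintype.card A := by
  classical
  obtain ⟨S, hS, hc⟩ := exists_cliqueFree' (A := A) k p hp hd hpk
  refine ⟨S, ?_, hc⟩
  obtain ⟨φ, hφ⟩ := hS
  intro T hT
  by_contra hcon
  push Not at hcon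
  have h1 : ∀ x ∈ T, φ (∑ y ∈ T.erase x, y.1) = 1 := by
    intro x hx
    have := hcon (T.erase x) (erase_subset _ _) (by rw [card_erase_of_mem hx, hT]; rfl)
    rw [mem_blowEdges] at this
    exact (hφ _).mp this.2
  have h2 : ∑ x ∈ T, ∑ y ∈ T.erase x, y.1 = k • ∑ x ∈ T, x.1 := by
    have : ∀ x ∈ T, ∑ y ∈ T.erase x, y.1 = ∑ y ∈ T, y.1 - x.1 := by
      intro x hx
      rw [← add_sum_erase T (fun y => y.1) hx]; abel
    rw [sum_congr rfl this, sum_sub_distrib, sum_const, hT, add_smul, one_smul]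
    abel
  have h3 : φ (∑ x ∈ T, ∑ y ∈ T.erase x, y.1) = (k + 1 : ℕ) := by
    rw [map_sum, sum_congr rfl h1, sum_const, hT, nsmul_eq_mul, mul_one]
  rw [h2, map_nsmul] at h3
  have hk0 : (k : ZMod p) = 0 := (ZMod.natCast_eq_zero_iff _ _).mpr hpk
  rw [nsmul_eq_mul, hk0, zero_mul, Nat.cast_add, hk0, zero_add, Nat.cast_one] at h3
  have := Fact.mk hp
  exact zero_ne_one h3

end

/-- the upper bound for all balanced blow-ups -/
theorem upper (k : ℕ) (hk : 2 ≤ k) (ε : ℝ) (hε : 0 < ε) :
    ∃ N : ℕ, ∀ (A : Type) [AddCommGroup A] [Fintype A] [DecidableEq A] (t : ℕ) [NeZero t],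
    N ≤ Fintype.card A * t →
    ∀ p : ℕ, 2 ≤ p → (∀ l : ℕ, l.Prime → l ∣ Fintype.card A → l ∣ k → p ≤ l) →
    ∀ S : Finset A, BlowFree k t S →
    ((blowEdges k t S).card : ℝ) ≤ (1 / p + ε) * ((Fintype.card A * t).choose k : ℝ) := by
  obtain ⟨N0, hN0⟩ := exists_zero_sum k hk (ε / 2) (by positivity)
  obtain ⟨N1, hN1⟩ := exists_nat_gt ((k : ℝ) * (2 + 2 / ε))
  refine ⟨N0 * (k + 1) + N1 + k, ?_⟩
  intro A _ _ _ t _ hA p hp2 hp S hS
  have ht0 : 0 < t := Nat.pos_of_ne_zero (NeZero.ne t)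
  have hp0 : (2 : ℝ) ≤ p := by exact_mod_cast hp2
  have hApos : 0 < Fintype.card A := Fintype.card_pos
  -- the density of `S`
  have hSd : (S.card : ℝ) ≤ (1 / p + ε / 2) * Fintype.card A := by
    by_cases ht : k + 1 ≤ t
    · have h1 := blow_exact k t ht (by omega) p hp S hS
      have h2 : (p : ℝ) * S.card ≤ Fintype.card A := by exact_mod_cast h1
      have h3 : (S.card : ℝ) ≤ 1 / p * Fintype.card A := by
        rw [one_div, le_inv_mul_iff₀ (by linarith)]; exact h2
      have h4 : (0 : ℝ) ≤ Fintype.card A := by positivity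
      nlinarith
    · push Not at ht
      by_contra hcon
      push Not at hcon
      have hAN : N0 ≤ Fintype.card A := by
        by_contra hlt
        push Not at hlt
        have : Fintype.card A * t ≤ N0 * (k + 1) := Nat.mul_le_mul hlt.le (by omega)
        have h5 : 0 < k := by omega
        omega
      obtain ⟨F, hF1, hF2, σ, hF3⟩ := hN0 A hAN p hp2 hp S hcon.le
      exact blow_clique_distinct k t S F hF1 hF2 σ hF3 hS
  obtain ⟨j, rfl⟩ : ∃ j, k = j + 1 := ⟨k - 1, by omega⟩
  have hj : j ≤ Fintype.card A * t := by omega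
  obtain ⟨h1, -⟩ := blow_density j t S hj
  set n := Fintype.card A * t with hn
  have hnR : ((Fintype.card A : ℝ)) * t = n := by rw [hn]; push_cast; ring
  have hnN : (N1 : ℝ) + j ≤ n := by
    have : N1 + j ≤ n := by omega
    exact_mod_cast this
  have hbig : ((j + 1 : ℕ) : ℝ) * (2 + 2 / ε) < n := by
    have : (0 : ℝ) ≤ j := by positivity
    linarith
  have hnj : (0 : ℝ) < n - j := by
    have h5 : (0 : ℝ) < 2 / ε := by positivity
    push_cast at hbig
    have : (0 : ℝ) ≤ j := by positivity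
    nlinarith
  have hC : (0 : ℝ) ≤ (n.choose (j + 1) : ℝ) := by positivity
  -- `(1/p + ε/2) n ≤ (1/p + ε) (n - j)`
  have hkey : (1 / p + ε / 2) * (n : ℝ) ≤ (1 / p + ε) * (n - j) := by
    have h5 : (1 / (p : ℝ) + ε) * j ≤ ε / 2 * n := by
      have h6 : (1 : ℝ) / p ≤ 1 := by
        rw [div_le_one (by linarith)]; linarith
      have h7 : ε / 2 * (((j + 1 : ℕ) : ℝ) * (2 + 2 / ε)) = (j + 1) * (ε + 1) := by
        push_cast
        field_simp
      have h8 : ε / 2 * (((j + 1 : ℕ) : ℝ) * (2 + 2 / ε)) ≤ ε / 2 * n := by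
        apply mul_le_mul_of_nonneg_left hbig.le (by positivity)
      have h9 : (0 : ℝ) ≤ j := by positivity
      nlinarith
    nlinarith
  have h10 : ((n : ℝ) - j) * (blowEdges (j + 1) t S).card ≤
      ((n : ℝ) - j) * ((1 / p + ε) * (n.choose (j + 1) : ℝ)) := by
    calc ((n : ℝ) - j) * (blowEdges (j + 1) t S).card ≤ (n.choose (j + 1) : ℝ) * (S.card * t) := h1
      _ ≤ (n.choose (j + 1) : ℝ) * (((1 / p + ε / 2) * Fintype.card A) * t) := by gcongr
      _ = (n.choose (j + 1) : ℝ) * ((1 / p + ε / 2) * n) := by rw [← hnR]; ring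
      _ ≤ (n.choose (j + 1) : ℝ) * ((1 / p + ε) * (n - j)) := by gcongr
      _ = _ := by ring
  exact le_of_mul_le_mul_left h10 hnj

theorem lower (k : ℕ) (hk : 2 ≤ k) (ε : ℝ) (hε : 0 < ε) :
    ∃ N : ℕ, ∀ (A : Type) [AddCommGroup A] [Fintype A] [DecidableEq A] (t : ℕ) [NeZero t],
    N ≤ Fintype.card A * t →
    ∀ p : ℕ, p.Prime → p ∣ Fintype.card A → p ∣ k →
    ∃ S : Finset A, BlowFree k t S ∧
    (1 / p - ε) * ((Fintype.card A * t).choose k : ℝ) ≤ ((blowEdges k t S).card : ℝ) := by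
  obtain ⟨N1, hN1⟩ := exists_nat_gt ((k : ℝ) / ε)
  refine ⟨N1 + k, ?_⟩
  intro A _ _ _ t _ hA p hp hpA hpk
  obtain ⟨S, hS, hc⟩ := exists_blowFree (A := A) k t p hp hpA hpk
  refine ⟨S, hS, ?_⟩
  obtain ⟨j, rfl⟩ : ∃ j, k = j + 1 := ⟨k - 1, by omega⟩
  have hj : j ≤ Fintype.card A * t := by omega
  obtain ⟨-, h1⟩ := blow_density j t S hj
  set n := Fintype.card A * t with hn
  have hnR : ((Fintype.card A : ℝ)) * t = n := by rw [hn]; push_cast; ring
  have hp0 : (0 : ℝ) < p := by exact_mod_cast hp.pos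
  have hSc : (S.card : ℝ) * t = 1 / p * n := by
    have : (p : ℝ) * S.card = Fintype.card A := by exact_mod_cast hc
    rw [← hnR, ← this]
    field_simp
  rw [hSc] at h1
  have hnN : (N1 : ℝ) + (j + 1) ≤ n := by
    have : N1 + (j + 1) ≤ n := hA
    exact_mod_cast this
  have hj0 : (0 : ℝ) ≤ j := by positivity
  have hN1' : ((j : ℝ) + 1) < ε * N1 := by
    rw [div_lt_iff₀ hε] at hN1
    push_cast at hN1
    linarith
  have hN1pos : (0 : ℝ) ≤ N1 := by positivity
  have hnj : (0 : ℝ) < n - j := by linarith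
  have hC : (0 : ℝ) ≤ (n.choose (j + 1) : ℝ) := by positivity
  -- (1/p - ε)(n - j) ≤ n/p - j
  have hkey : (1 / p - ε) * ((n : ℝ) - j) ≤ 1 / p * n - j := by
    have h5 : (0 : ℝ) < 1 / p := by positivity
    nlinarith [mul_nonneg h5.le hj0]
  have h10 : ((n : ℝ) - j) * ((1 / p - ε) * (n.choose (j + 1) : ℝ)) ≤
      ((n : ℝ) - j) * (blowEdges (j + 1) t S).card := by
    calc ((n : ℝ) - j) * ((1 / p - ε) * (n.choose (j + 1) : ℝ))
        = (n.choose (j + 1) : ℝ) * ((1 / p - ε) * ((n : ℝ) - j)) := by ring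
      _ ≤ (n.choose (j + 1) : ℝ) * (1 / p * n - j) := by gcongr
      _ ≤ _ := by linarith
  exact le_of_mul_le_mul_left h10 hnj

/-- orders prime to `k`: density zero -/
theorem coprime_case (k : ℕ) (hk : 2 ≤ k) (ε : ℝ) (hε : 0 < ε) :
    ∃ N : ℕ, ∀ (A : Type) [AddCommGroup A] [Fintype A] [DecidableEq A] (t : ℕ) [NeZero t],
    N ≤ Fintype.card A * t → Nat.Coprime (Fintype.card A) k →
    ∀ S : Finset A, BlowFree k t S →
    ((blowEdges k t S).card : ℝ) ≤ ε * ((Fintype.card A * t).choose k : ℝ) := by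
  obtain ⟨m, hm⟩ := exists_nat_gt (2 / ε)
  obtain ⟨N, hN⟩ := upper k hk (ε / 2) (by positivity)
  refine ⟨N, ?_⟩
  intro A _ _ _ t _ hA hc S hS
  have h1 := hN A t hA (m + 2) (by omega) (by
    intro l hl h1 h2
    have := Nat.Coprime.eq_one_of_dvd (Nat.Coprime.coprime_dvd_left h1 hc) h2
    exact absurd this hl.one_lt.ne') S hS
  refine h1.trans ?_
  have h2 : (1 : ℝ) / ((m + 2 : ℕ) : ℝ) ≤ ε / 2 := by
    have : (0 : ℝ) < 2 / ε := by positivity
    rw [div_le_iff₀ (by push_cast; linarith)]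
    rw [div_lt_iff₀ hε] at hm
    push_cast
    nlinarith
  have hC : (0 : ℝ) ≤ ((Fintype.card A * t).choose k : ℝ) := by positivity
  nlinarith

end Pool.Agent.R187.SH
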